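import Pool.Agent.MP_5f72fe_nt.H3.SpecA

/-! Symmetries and independence of the harmonic polynomials. -/

set_option autoImplicit false

namespace Pool.Agent.MP_5f72fe_nt.H99

open Pool.Agent.MP_5f72fe_nt.H3

namespace PolAux

theorem chi3_eq (y : ℤ) : chi3 y = if y % 3 = 2 then -1 else y % 3 := by
  unfold chi3 Int.bmod
  simp only [Nat.cast_ofNat]
  split_ifs <;> omega

theorem chi3_add (y t : ℤ) : chi3 (y + 3 * t) = chi3 y := by
  rw [chi3_eq, chi3_eq, Int.add_mul_emod_self_left]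

theorem chi3_mul (x y : ℤ) : chi3 (x * y) = chi3 x * chi3 y := by
  rw [chi3_eq, chi3_eq, chi3_eq, Int.mul_emod]
  have hx : x % 3 = 0 ∨ x % 3 = 1 ∨ x % 3 = 2 := by omega
  have hy : y % 3 = 0 ∨ y % 3 = 1 ∨ y % 3 = 2 := by omega
  rcases hx with h | h | h <;> rcases hy with h' | h' | h' <;> simp [h, h']

theorem re_smul (l : ℤ) (β : ℤ√(-3)) (m : ℕ) : (((l : ℤ√(-3)) * β) ^ m).re = l ^ m * (β ^ m).re := by
  rw [mul_pow, ← Int.cast_pow, Zsqrtd.re_smul]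

/-- scaling of the sum -/
theorem sum_scale (d m : ℕ) (l N A : ℤ) :
    l ^ m * ∑ i ∈ (Finset.range (d + 1)).filter fun i => m + 2 * i ≤ d,
      ((d.choose i * (d - i).choose (m + i) : ℕ) : ℤ) * (l ^ 2 * N) ^ i * (l * A) ^ (d - m - 2 * i) =
    l ^ d * ∑ i ∈ (Finset.range (d + 1)).filter fun i => m + 2 * i ≤ d,
      ((d.choose i * (d - i).choose (m + i) : ℕ) : ℤ) * N ^ i * A ^ (d - m - 2 * i) := by
  rw [Finset.mul_sum, Finset.mul_sum]
  refine Finset.sum_congr rfl fun i hi => ?_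
  have h := (Finset.mem_filter.mp hi).2
  have e : l ^ d = l ^ m * (l ^ 2) ^ i * l ^ (d - m - 2 * i) := by
    rw [← pow_mul, ← pow_add, ← pow_add]; congr 1; omega
  rw [e, mul_pow, mul_pow]
  ring

theorem pow_mod (b : ℤ) (m : ℕ) :
    (1 + 3 * b ^ 2) ∣ ((⟨1, b⟩ : ℤ√(-3)) ^ (m + 1)).re - 2 ^ m := by
  have h : ((1 + 3 * b ^ 2 : ℤ) : ℤ√(-3)) ∣
      (⟨1, b⟩ : ℤ√(-3)) ^ (m + 1) - ((2 ^ m : ℤ) : ℤ√(-3)) * ⟨1, b⟩ := by
    have h2 : (⟨1, b⟩ : ℤ√(-3)) * ⟨1, b⟩ - ((2 : ℤ) : ℤ√(-3)) * ⟨1, b⟩ =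
        -((1 + 3 * b ^ 2 : ℤ) : ℤ√(-3)) := by
      ext
      · simp only [Zsqrtd.re_sub, Zsqrtd.re_mul, Zsqrtd.re_neg, Zsqrtd.re_intCast,
          Zsqrtd.im_intCast]
        ring
      · simp only [Zsqrtd.im_sub, Zsqrtd.im_mul, Zsqrtd.im_neg, Zsqrtd.re_intCast,
          Zsqrtd.im_intCast]
        ring
    induction m with
    | zero => simp
    | succ m ih =>
      have e : (⟨1, b⟩ : ℤ√(-3)) ^ (m + 1 + 1) - ((2 ^ (m + 1) : ℤ) : ℤ√(-3)) * ⟨1, b⟩ =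
          ⟨1, b⟩ * (⟨1, b⟩ ^ (m + 1) - ((2 ^ m : ℤ) : ℤ√(-3)) * ⟨1, b⟩) +
            ((2 ^ m : ℤ) : ℤ√(-3)) * (⟨1, b⟩ * ⟨1, b⟩ - ((2 : ℤ) : ℤ√(-3)) * ⟨1, b⟩) := by
        rw [pow_succ (2 : ℤ), Int.cast_mul]
        ring
      rw [e, h2]
      exact dvd_add (ih.mul_left _) ((dvd_neg.mpr dvd_rfl).mul_left _)
  have h1 := ((Zsqrtd.intCast_dvd _ _).mp h).1
  rwa [Zsqrtd.re_sub, Zsqrtd.re_smul, mul_one] at h1

theorem at_zero (i m : ℕ) (b : ℤ) : Pd (m + 2 * i) m (0, 1, b) =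
    ((⟨1, b⟩ : ℤ√(-3)) ^ m).re * ((m + 2 * i).choose i * (-3) ^ i) * (1 + 3 * b ^ 2) ^ i := by
  unfold Pd
  rw [Finset.sum_eq_single i]
  · have e1 : m + 2 * i - i = m + i := by omega
    have e2 : m + 2 * i - m - 2 * i = 0 := by omega
    have e3 : chi3 1 = 1 := by rw [chi3_eq]; norm_num
    simp only [e1, e2, e3, Nat.choose_self, mul_pow]
    ring
  · intro i' hi' hne
    have h := (Finset.mem_filter.mp hi').2
    rw [mul_zero, zero_pow (by omega), mul_zero]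
  · intro h
    exfalso
    apply h
    simp only [Finset.mem_filter, Finset.mem_range]
    omega

theorem ind (j : ℕ) (z : Fin (j / 6 + 1) → ℤ) (hj : Even j)
    (h : ∀ v : V, ∑ l, z l * Pd (j + 3) (6 * l + 3) v = 0) : z = 0 := by
  obtain ⟨c, hc⟩ := hj
  have hP : ∀ (l : Fin (j / 6 + 1)) (b : ℤ), Pd (j + 3) (6 * l + 3) (0, 1, b) =
      ((⟨1, b⟩ : ℤ√(-3)) ^ (6 * (l : ℕ) + 3)).re * ((j + 3).choose (c - 3 * l) * (-3) ^ (c - 3 * (l : ℕ))) *
        (1 + 3 * b ^ 2) ^ (c - 3 * (l : ℕ)) := by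
    intro l b
    have hl := l.2
    have e : j + 3 = 6 * l + 3 + 2 * (c - 3 * l) := by omega
    rw [e, at_zero]
  have key : ∀ (n : ℕ) (l : Fin (j / 6 + 1)), c - 3 * l = n → z l = 0 := by
    intro n
    induction n using Nat.strong_induction_on with
    | _ n ih =>
      intro l hl
      set K : ℤ := z l * ((j + 3).choose n * (-3) ^ n) * 2 ^ (6 * (l : ℕ) + 2) with hK
      have hd : ∀ b : ℤ, (1 + 3 * b ^ 2) ∣ K := by
        intro b
        have h1 := h (0, 1, b)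
        rw [← Finset.add_sum_erase _ _ (Finset.mem_univ l)] at h1
        have h2 : (1 + 3 * b ^ 2) ^ (n + 1) ∣
            ∑ x ∈ Finset.univ.erase l, z x * Pd (j + 3) (6 * x + 3) (0, 1, b) := by
          refine Finset.dvd_sum fun x hx => ?_
          have hne : (x : ℕ) ≠ l := fun e => (Finset.mem_erase.mp hx).1 (Fin.ext e)
          have hx2 := x.2
          have hl2 := l.2
          rcases lt_or_gt_of_ne hne with hlt | hlt
          · rw [hP]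
            exact ((pow_dvd_pow _ (by omega)).mul_left _).mul_left _
          · rw [ih (c - 3 * x) (by omega) x rfl, zero_mul]
            exact dvd_zero _
        rw [← eq_neg_iff_add_eq_zero] at h1
        rw [← dvd_neg, ← h1, hP, hl, pow_succ', ← mul_assoc] at h2
        have hpos : (1 + 3 * b ^ 2) ^ n ≠ 0 := pow_ne_zero _ (by positivity)
        have h3 := (mul_dvd_mul_iff_right hpos).mp h2
        have h4 := (pow_mod b (6 * l + 2)).mul_left (z l * ((j + 3).choose n * (-3) ^ n))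
        have h5 := dvd_sub h3 h4
        have e : z l * (((⟨1, b⟩ : ℤ√(-3)) ^ (6 * (l : ℕ) + 3)).re * ((j + 3).choose n * (-3) ^ n)) -
            z l * ((j + 3).choose n * (-3) ^ n) *
              (((⟨1, b⟩ : ℤ√(-3)) ^ (6 * (l : ℕ) + 2 + 1)).re - 2 ^ (6 * (l : ℕ) + 2)) = K := by
          rw [hK]; ring
        rwa [e] at h5
      have h0 : K = 0 := Int.eq_zero_of_abs_lt_dvd (hd K) (by
        nlinarith [sq_abs K, abs_nonneg K, sq_nonneg (|K| - 1)])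
      have hch : (j + 3).choose n ≠ 0 := (Nat.choose_pos (by omega)).ne'
      rw [hK] at h0
      simpa [hch] using h0
  funext l
  exact key _ l rfl

end PolAux

open PolAux

theorem rowPOL : RowPOL where
  zero d m v h := by
    unfold Pd
    rw [chi3_eq, Int.emod_eq_zero_of_dvd h]
    simp
  per d m e v w := by
    obtain ⟨a, y, b⟩ := v
    obtain ⟨a', y', b'⟩ := w
    set N : ℤ := 3 ^ (e + 1) with hN
    have h0 : ∀ x t : ℤ, x + N * t ≡ x [ZMOD N] := fun x t =>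
      Int.modEq_iff_dvd.mpr ⟨-t, by ring⟩
    refine Int.ModEq.dvd (Int.ModEq.symm ?_)
    unfold Pd
    simp only [Prod.smul_mk, Prod.mk_add_mk, smul_eq_mul]
    have h1 : chi3 (y + N * y') = chi3 y := by
      rw [hN, pow_succ', mul_assoc, chi3_add]
    have h2 : ((⟨y + N * y', b + N * b'⟩ : ℤ√(-3)) ^ m).re ≡ ((⟨y, b⟩ : ℤ√(-3)) ^ m).re [ZMOD N] := by
      have h3 := sub_dvd_pow_sub_pow (⟨y + N * y', b + N * b'⟩ : ℤ√(-3)) ⟨y, b⟩ m
      have h4 : (N : ℤ√(-3)) ∣ (⟨y + N * y', b + N * b'⟩ : ℤ√(-3)) - ⟨y, b⟩ :=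
        (Zsqrtd.intCast_dvd _ _).mpr ⟨⟨y', by simp⟩, ⟨b', by simp⟩⟩
      have h5 := ((Zsqrtd.intCast_dvd _ _).mp (h4.trans h3)).1
      rw [Zsqrtd.re_sub] at h5
      exact (Int.modEq_iff_dvd.mpr h5).symm
    rw [h1]
    refine (h2.mul_left _).mul (Int.ModEq.sum fun i _ => ?_)
    exact (((((h0 y y').pow 2).add (((h0 b b').pow 2).mul_left 3)).mul_left (-3)).pow i).mul_left _
      |>.mul (((h0 a a').mul_left 6).pow _)
  hom d m l v := by
    obtain ⟨a, y, b⟩ := v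
    unfold Pd
    simp only [Prod.smul_mk, smul_eq_mul]
    have e1 : (⟨l * y, l * b⟩ : ℤ√(-3)) = (l : ℤ√(-3)) * ⟨y, b⟩ := by ext <;> simp
    have e2 : -3 * ((l * y) ^ 2 + 3 * (l * b) ^ 2) = l ^ 2 * (-3 * (y ^ 2 + 3 * b ^ 2)) := by ring
    have e3 : 6 * (l * a) = l * (6 * a) := by ring
    have h := sum_scale d m l (-3 * (y ^ 2 + 3 * b ^ 2)) (6 * a)
    rw [e1, e2, e3, re_smul, chi3_mul]
    linear_combination (chi3 l * chi3 y * ((⟨y, b⟩ : ℤ√(-3)) ^ m).re) * h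
  sgnA d m a y b h := by
    unfold Pd
    congr 1
    refine Finset.sum_congr rfl fun i hi => ?_
    have h1 := (Finset.mem_filter.mp hi).2
    have h2 : Even (d - m - 2 * i) := Nat.even_iff.mpr (by omega)
    simp only [mul_neg, h2.neg_pow]
  sgnB d m a y b := by
    unfold Pd
    have e : (⟨y, -b⟩ : ℤ√(-3)) = star ⟨y, b⟩ := rfl
    simp only [e, ← star_pow, Zsqrtd.re_star, neg_sq]
  rot d m v h := by
    obtain ⟨a, y, b⟩ := v
    obtain ⟨c, rfl⟩ := h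
    unfold Pd sg
    have e0 : (⟨y + 3 * b, b - y⟩ : ℤ√(-3)) ^ 3 = (((-2 : ℤ) : ℤ√(-3)) * ⟨y, b⟩) ^ 3 := by
      ext <;> simp [pow_succ] <;> ring
    have e1 : (⟨y + 3 * b, b - y⟩ : ℤ√(-3)) ^ (3 * c) =
        (((-2 : ℤ) : ℤ√(-3)) * ⟨y, b⟩) ^ (3 * c) := by
      rw [pow_mul, e0, ← pow_mul]
    have e2 : -3 * ((y + 3 * b) ^ 2 + 3 * (b - y) ^ 2) =
        (-2) ^ 2 * (-3 * (y ^ 2 + 3 * b ^ 2)) := by ring
    have e3 : 6 * (-2 * a) = -2 * (6 * a) := by ring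
    have h := sum_scale d (3 * c) (-2) (-3 * (y ^ 2 + 3 * b ^ 2)) (6 * a)
    simp only
    rw [e1, e2, e3, re_smul, chi3_add]
    linear_combination (chi3 y * ((⟨y, b⟩ : ℤ√(-3)) ^ (3 * c)).re) * h
  ind := ind

end Pool.Agent.MP_5f72fe_nt.H99
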